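import Pool.Agent.D0H73.MK.Stm

/-! Limit operators of directed sets (module LIM of project MK of helper73). -/

set_option autoImplicit false

open Set Topology Filter

namespace Pool.Agent.D0H22.MK

open Pool.Agent.D0H73.MK

universe u

section
variable {𝕜 : Type} [RCLike 𝕜] {X : Type u} [NormedAddCommGroup X] [NormedSpace 𝕜 X]
  {Γ : Type u} [PartialOrder Γ] {P : Γ → X →L[𝕜] X} {r : ℝ}

theorem rpos (h : IsBSkel P r) : 0 ≤ r := by
  obtain ⟨s⟩ := h.nonempty
  exact (norm_nonneg _).trans (h.bdd s)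

theorem le_r (h : IsBSkel P r) (s : Γ) (x : X) : ‖P s x‖ ≤ r * ‖x‖ :=
  (P s).le_of_opNorm_le (h.bdd s) x

/-- convergence along increasing sequences -/
theorem conv (h : IsBSkel P r) {f : ℕ → Γ} (hf : Monotone f) {t : Γ} (ht : IsLUB (range f) t) (x : X) :
    Tendsto (fun n => P (f n) x) atTop (𝓝 (P t x)) := by
  have hr := rpos h
  have hle : ∀ n, f n ≤ t := fun n => ht.1 ⟨n, rfl⟩
  rw [Metric.tendsto_atTop]
  intro ε hε
  have h1 : P t x ∈ closure (⋃ n, range (P (f n))) := by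
    rw [← h.sup f hf t ht]
    exact ⟨x, rfl⟩
  rw [Metric.mem_closure_iff] at h1
  obtain ⟨z, hz, hd⟩ := h1 (ε / (r + 1)) (by positivity)
  obtain ⟨n, w, rfl⟩ := mem_iUnion.1 hz
  refine ⟨n, fun k hk => ?_⟩
  have h2 : P (f k) (P (f n) w) = P (f n) w := (h.comm (f n) (f k) (hf hk) w).2
  have h3 : P (f k) x = P (f k) (P t x) := ((h.comm (f k) t (hle k) x).1).symm
  rw [dist_eq_norm] at hd ⊢
  have e : P (f k) x - P t x = P (f k) (P t x - P (f n) w) - (P t x - P (f n) w) := by
    rw [map_sub, h2, h3]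
    abel
  rw [e]
  calc _ ≤ ‖P (f k) (P t x - P (f n) w)‖ + ‖P t x - P (f n) w‖ := norm_sub_le _ _
    _ ≤ r * ‖P t x - P (f n) w‖ + ‖P t x - P (f n) w‖ := by
        have := le_r h (f k) (P t x - P (f n) w)
        linarith
    _ = (r + 1) * ‖P t x - P (f n) w‖ := by ring
    _ < (r + 1) * (ε / (r + 1)) := by
        refine mul_lt_mul_of_pos_left hd (by positivity)
    _ = ε := by field_simp

/-- Cauchy property of directed sets -/
theorem cau (h : IsBSkel P r) {T : Set Γ} (hT : IsDir T) (x : X) {ε : ℝ} (hε : 0 < ε) :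
    ∃ t0 ∈ T, ∀ t ∈ T, t0 ≤ t → ‖P t x - P t0 x‖ < ε := by
  by_contra hc
  push Not at hc
  choose! nx h1 h2 h3 using hc
  obtain ⟨a, ha⟩ := hT.1
  let f : ℕ → Γ := fun n => Nat.rec a (fun _ t => nx t) n
  have hfs : ∀ n, f (n + 1) = nx (f n) := fun n => rfl
  have hfT : ∀ n, f n ∈ T := by
    intro n
    induction n with
    | zero => exact ha
    | succ n ih =>
      rw [hfs]
      exact h1 _ ih
  have hmono : Monotone f := monotone_nat_of_le_succ fun n => by
    rw [hfs]
    exact h2 _ (hfT n)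
  obtain ⟨t, ht⟩ := h.exists_sup f hmono
  have hcv := (conv h hmono ht x).cauchySeq
  rw [Metric.cauchySeq_iff'] at hcv
  obtain ⟨N, hN⟩ := hcv (ε / 2) (by positivity)
  have h4 := hN N le_rfl
  have h5 := hN (N + 1) (Nat.le_succ N)
  have h6 := h3 (f N) (hfT N)
  rw [← hfs, ← dist_eq_norm] at h6
  linarith

end

theorem t_LIM : S_LIM.{u} := by
  intro 𝕜 _ X _ _ _ Γ _ P r h T hT
  have hr := rpos h
  have hne : Nonempty T := hT.1.to_subtype
  have hdir : IsDirectedOrder T := ⟨fun s t => by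
    obtain ⟨v, hv, h1, h2⟩ := hT.2 s.1 s.2 t.1 t.2
    exact ⟨⟨v, hv⟩, h1, h2⟩⟩
  have hcs : ∀ x, CauchySeq fun t : T => P t x := by
    intro x
    refine Metric.cauchy_iff.2 ⟨map_neBot, fun ε hε => ?_⟩
    obtain ⟨t0, h0, h1⟩ := cau h hT x (half_pos hε)
    refine ⟨(fun t : T => P t x) '' Ici ⟨t0, h0⟩, image_mem_map (Ici_mem_atTop _), ?_⟩
    rintro _ ⟨s, hs, rfl⟩ _ ⟨t, ht, rfl⟩
    have h2 := h1 s.1 s.2 hs
    have h3 := h1 t.1 t.2 ht
    have h4 : dist (P s.1 x) (P t.1 x) ≤ dist (P s.1 x) (P t0 x) + dist (P t.1 x) (P t0 x) :=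
      dist_triangle_right _ _ _
    rw [dist_eq_norm, dist_eq_norm, dist_eq_norm] at h4
    rw [dist_eq_norm]
    linarith
  choose L0 hL0 using fun x => cauchySeq_tendsto_of_complete (hcs x)
  set Ll : X →ₗ[𝕜] X := linearMapOfTendsto L0 (fun t : T => (P t : X →ₗ[𝕜] X)) (l := atTop)
    (tendsto_pi_nhds.2 hL0) with hLl
  have hLlx : ∀ x, Ll x = L0 x := fun x => rfl
  have hb : ∀ x, ‖Ll x‖ ≤ r * ‖x‖ := by
    intro x
    rw [hLlx]
    exact le_of_tendsto (hL0 x).norm (Eventually.of_forall fun t => le_r h t.1 x)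
  set L : X →L[𝕜] X := Ll.mkContinuous r hb with hL
  have hLx : ∀ x, L x = L0 x := fun x => rfl
  have hlim : ∀ x, Tendsto (fun t : T => P t x) atTop (𝓝 (L x)) := hL0
  have hleft : ∀ t ∈ T, ∀ x, P t (L x) = P t x := by
    intro t ht x
    have h1 : Tendsto (fun s : T => P t (P s x)) atTop (𝓝 (P t (L x))) :=
      ((P t).continuous.tendsto _).comp (hlim x)
    have h2 : Tendsto (fun s : T => P t (P s x)) atTop (𝓝 (P t x)) := by
      refine tendsto_const_nhds.congr' ?_
      filter_upwards [eventually_ge_atTop (⟨t, ht⟩ : T)] with s hs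
      exact ((h.comm t s.1 hs x).1).symm
    exact tendsto_nhds_unique h1 h2
  have hright : ∀ t ∈ T, ∀ x, L (P t x) = P t x := by
    intro t ht x
    have h2 : Tendsto (fun s : T => P s (P t x)) atTop (𝓝 (P t x)) := by
      refine tendsto_const_nhds.congr' ?_
      filter_upwards [eventually_ge_atTop (⟨t, ht⟩ : T)] with s hs
      exact ((h.comm t s.1 hs x).2).symm
    exact tendsto_nhds_unique (hlim _) h2
  have hidem : ∀ x, L (L x) = L x := by
    intro x
    have h1 : Tendsto (fun t : T => P t (L x)) atTop (𝓝 (L x)) := by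
      refine (hlim x).congr fun t => ?_
      exact (hleft t.1 t.2 x).symm
    exact tendsto_nhds_unique (hlim _) h1
  refine ⟨L, ⟨?_, hleft, hright, hidem, ?_⟩, ?_⟩
  · intro x ε hε
    have h0 := (Metric.tendsto_nhds.1 (hlim x)) ε hε
    obtain ⟨t0, h0⟩ := eventually_atTop.1 h0
    refine ⟨t0.1, t0.2, fun t ht h1 => ?_⟩
    have := h0 ⟨t, ht⟩ h1
    rwa [dist_eq_norm] at this
  · apply Subset.antisymm
    · rintro _ ⟨x, rfl⟩
      refine mem_closure_of_tendsto (hlim x) (Eventually.of_forall fun t => ?_)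
      exact mem_iUnion₂.2 ⟨t.1, t.2, x, rfl⟩
    · have hcl : IsClosed (range L) := by
        have : range L = {x | L x = x} := by
          ext x
          constructor
          · rintro ⟨y, rfl⟩
            exact hidem y
          · intro hx
            exact ⟨x, hx⟩
        rw [this]
        exact isClosed_eq L.continuous continuous_id
      refine closure_minimal ?_ hcl
      intro y hy
      obtain ⟨t, ht, x, rfl⟩ := mem_iUnion₂.1 hy
      exact ⟨P t x, hright t ht x⟩
  · exact LinearMap.mkContinuous_norm_le _ hr _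

end Pool.Agent.D0H22.MK
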