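import Pool.Agent.D0H73.MK.Stm

/-! Markushevich's theorem for separable spaces (module MB of project MK of helper73). -/

set_option autoImplicit false

open Set Topology Filter

namespace Pool.Agent.D0H22.MK

open Pool.Agent.D0H73.MK

universe u

section
variable {𝕜 : Type} [RCLike 𝕜] {X : Type u} [NormedAddCommGroup X] [NormedSpace 𝕜 X]

/-- finite biorthogonal sets -/
def Bio (F : Finset (X × (X →L[𝕜] 𝕜))) : Prop :=
  (∀ p ∈ F, p.2 p.1 = 1) ∧ ∀ p ∈ F, ∀ q ∈ F, p ≠ q → p.2 q.1 = 0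

open Classical in
theorem Bio.ins {F : Finset (X × (X →L[𝕜] 𝕜))} (hF : Bio F) {y : X} {f : X →L[𝕜] 𝕜} (h1 : f y = 1)
    (h2 : ∀ q ∈ F, q.2 y = 0) (h3 : ∀ q ∈ F, f q.1 = 0) : Bio (insert (y, f) F) := by
  constructor
  · intro p hp
    rcases Finset.mem_insert.1 hp with rfl | hp
    · exact h1
    · exact hF.1 p hp
  · intro p hp q hq hne
    rcases Finset.mem_insert.1 hp with rfl | hp <;> rcases Finset.mem_insert.1 hq with rfl | hq
    · exact absurd rfl hne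
    · exact h3 q hq
    · exact h2 p hp
    · exact hF.2 p hp q hq hne

theorem Bio.sum1 {F : Finset (X × (X →L[𝕜] 𝕜))} (hF : Bio F) {q : X × (X →L[𝕜] 𝕜)} (hq : q ∈ F)
    (c : X × (X →L[𝕜] 𝕜) → 𝕜) : q.2 (∑ p ∈ F, c p • p.1) = c q := by
  rw [map_sum, Finset.sum_eq_single_of_mem q hq]
  · rw [map_smul, hF.1 q hq, smul_eq_mul, mul_one]
  · intro p hp hne
    rw [map_smul, hF.2 q hq p hp (Ne.symm hne), smul_zero]

theorem Bio.sum2 {F : Finset (X × (X →L[𝕜] 𝕜))} (hF : Bio F) {q : X × (X →L[𝕜] 𝕜)} (hq : q ∈ F)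
    (c : X × (X →L[𝕜] 𝕜) → 𝕜) : (∑ p ∈ F, c p • p.2) q.1 = c q := by
  rw [ContinuousLinearMap.sum_apply, Finset.sum_eq_single_of_mem q hq]
  · rw [ContinuousLinearMap.smul_apply, hF.1 q hq, smul_eq_mul, mul_one]
  · intro p hp hne
    rw [ContinuousLinearMap.smul_apply, hF.2 p hp q hq hne, smul_zero]

theorem mem_span1 {F : Finset (X × (X →L[𝕜] 𝕜))} (c : X × (X →L[𝕜] 𝕜) → 𝕜) :
    ∑ p ∈ F, c p • p.1 ∈ Submodule.span 𝕜 {y | ∃ p ∈ F, p.1 = y} :=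
  Submodule.sum_mem _ fun p hp => Submodule.smul_mem _ _ (Submodule.subset_span ⟨p, hp, rfl⟩)

theorem mem_span2 {F : Finset (X × (X →L[𝕜] 𝕜))} (c : X × (X →L[𝕜] 𝕜) → 𝕜) :
    ∑ p ∈ F, c p • p.2 ∈ Submodule.span 𝕜 {y | ∃ p ∈ F, p.2 = y} :=
  Submodule.sum_mem _ fun p hp => Submodule.smul_mem _ _ (Submodule.subset_span ⟨p, hp, rfl⟩)

theorem stepA {F : Finset (X × (X →L[𝕜] 𝕜))} (hF : Bio F) (z : X) :
    ∃ F' : Finset (X × (X →L[𝕜] 𝕜)), F ⊆ F' ∧ Bio F' ∧ z ∈ Submodule.span 𝕜 {y | ∃ p ∈ F', p.1 = y} := by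
  classical
  set y : X := z - ∑ p ∈ F, p.2 z • p.1 with hy
  have hqy : ∀ q ∈ F, q.2 y = 0 := fun q hq => by
    rw [hy, map_sub, hF.sum1 hq (fun p => p.2 z), sub_self]
  by_cases h0 : y = 0
  · refine ⟨F, subset_rfl, hF, ?_⟩
    rw [sub_eq_zero.1 (hy.symm.trans h0)]
    exact mem_span1 fun p => p.2 z
  · obtain ⟨g, -, hg⟩ := exists_dual_vector'' 𝕜 y
    have hn : ((‖y‖ : ℝ) : 𝕜) ≠ 0 := by
      rw [Ne, RCLike.ofReal_eq_zero, norm_eq_zero]
      exact h0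
    set f : X →L[𝕜] 𝕜 := ((‖y‖ : ℝ) : 𝕜)⁻¹ • g with hf
    have hfy : f y = 1 := by
      rw [hf, ContinuousLinearMap.smul_apply, hg, smul_eq_mul, inv_mul_cancel₀ hn]
    set f' : X →L[𝕜] 𝕜 := f - ∑ p ∈ F, f p.1 • p.2 with hf'
    have h1 : f' y = 1 := by
      rw [hf', ContinuousLinearMap.sub_apply, hfy, ContinuousLinearMap.sum_apply,
        Finset.sum_eq_zero fun p hp => by rw [ContinuousLinearMap.smul_apply, hqy p hp, smul_zero], sub_zero]
    have h3 : ∀ q ∈ F, f' q.1 = 0 := fun q hq => by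
      rw [hf', ContinuousLinearMap.sub_apply, hF.sum2 hq (fun p => f p.1), sub_self]
    refine ⟨insert (y, f') F, Finset.subset_insert _ _, hF.ins h1 hqy h3, ?_⟩
    have e : z = y + ∑ p ∈ F, p.2 z • p.1 := by rw [hy, sub_add_cancel]
    rw [e]
    refine Submodule.add_mem _ (Submodule.subset_span ⟨(y, f'), Finset.mem_insert_self _ _, rfl⟩) ?_
    refine Submodule.span_mono ?_ (mem_span1 fun p => p.2 z)
    rintro _ ⟨p, hp, rfl⟩
    exact ⟨p, Finset.mem_insert_of_mem hp, rfl⟩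

theorem stepB {F : Finset (X × (X →L[𝕜] 𝕜))} (hF : Bio F) (g : X →L[𝕜] 𝕜) :
    ∃ F' : Finset (X × (X →L[𝕜] 𝕜)), F ⊆ F' ∧ Bio F' ∧ g ∈ Submodule.span 𝕜 {y | ∃ p ∈ F', p.2 = y} := by
  classical
  set h : X →L[𝕜] 𝕜 := g - ∑ p ∈ F, g p.1 • p.2 with hh
  have hqh : ∀ q ∈ F, h q.1 = 0 := fun q hq => by
    rw [hh, ContinuousLinearMap.sub_apply, hF.sum2 hq (fun p => g p.1), sub_self]
  by_cases h0 : h = 0
  · refine ⟨F, subset_rfl, hF, ?_⟩
    rw [sub_eq_zero.1 (hh.symm.trans h0)]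
    exact mem_span2 fun p => g p.1
  · obtain ⟨w, hw⟩ : ∃ w, h w ≠ 0 := by
      by_contra hc
      push Not at hc
      exact h0 (ContinuousLinearMap.ext fun w => by rw [hc w]; rfl)
    set v : X := (h w)⁻¹ • w with hv
    have hhv : h v = 1 := by
      rw [hv, map_smul, smul_eq_mul, inv_mul_cancel₀ hw]
    set v' : X := v - ∑ p ∈ F, p.2 v • p.1 with hv'
    have h1 : h v' = 1 := by
      rw [hv', map_sub, hhv, map_sum, Finset.sum_eq_zero fun p hp => by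
        rw [map_smul, hqh p hp, smul_zero], sub_zero]
    have h2 : ∀ q ∈ F, q.2 v' = 0 := fun q hq => by
      rw [hv', map_sub, hF.sum1 hq (fun p => p.2 v), sub_self]
    refine ⟨insert (v', h) F, Finset.subset_insert _ _, hF.ins h1 h2 hqh, ?_⟩
    have e : g = h + ∑ p ∈ F, g p.1 • p.2 := by rw [hh, sub_add_cancel]
    rw [e]
    refine Submodule.add_mem _ (Submodule.subset_span ⟨(v', h), Finset.mem_insert_self _ _, rfl⟩) ?_
    refine Submodule.span_mono ?_ (mem_span2 fun p => g p.1)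
    rintro _ ⟨p, hp, rfl⟩
    exact ⟨p, Finset.mem_insert_of_mem hp, rfl⟩

theorem step {F : Finset (X × (X →L[𝕜] 𝕜))} (hF : Bio F) (z : X) (g : X →L[𝕜] 𝕜) :
    ∃ F' : Finset (X × (X →L[𝕜] 𝕜)), F ⊆ F' ∧ Bio F' ∧
      z ∈ Submodule.span 𝕜 {y | ∃ p ∈ F', p.1 = y} ∧ g ∈ Submodule.span 𝕜 {y | ∃ p ∈ F', p.2 = y} := by
  obtain ⟨F₁, h1, h2, h3⟩ := stepA hF z
  obtain ⟨F₂, h4, h5, h6⟩ := stepB h2 g
  refine ⟨F₂, h1.trans h4, h5, Submodule.span_mono ?_ h3, h6⟩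
  rintro _ ⟨p, hp, rfl⟩
  exact ⟨p, h4 hp, rfl⟩

end

theorem t_MB : S_MB.{u} := by
  intro 𝕜 _ X _ _ _
  -- a dense sequence and norming functionals
  set z : ℕ → X := TopologicalSpace.denseSeq X with hz
  have hzd : DenseRange z := TopologicalSpace.denseRange_denseSeq X
  choose g hg1 hg2 using fun n => exists_dual_vector'' 𝕜 (z n)
  -- the chain
  have hstep : ∀ (n : ℕ) (F : {F : Finset (X × (X →L[𝕜] 𝕜)) // Bio F}),
      ∃ F' : {F : Finset (X × (X →L[𝕜] 𝕜)) // Bio F}, F.1 ⊆ F'.1 ∧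
        z n ∈ Submodule.span 𝕜 {y | ∃ p ∈ F'.1, p.1 = y} ∧
        g n ∈ Submodule.span 𝕜 {y | ∃ p ∈ F'.1, p.2 = y} := by
    intro n F
    obtain ⟨F', h1, h2, h3, h4⟩ := step F.2 (z n) (g n)
    exact ⟨⟨F', h2⟩, h1, h3, h4⟩
  choose nx hnx1 hnx2 hnx3 using hstep
  let C : ℕ → {F : Finset (X × (X →L[𝕜] 𝕜)) // Bio F} := fun n =>
    Nat.rec ⟨∅, by constructor <;> simp⟩ (fun n F => nx n F) n
  have hC : ∀ n, C (n + 1) = nx n (C n) := fun n => rfl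
  have hmono : Monotone fun n => (C n).1 := monotone_nat_of_le_succ fun n => by
    rw [hC]
    exact hnx1 n (C n)
  set U : Set (X × (X →L[𝕜] 𝕜)) := {p | ∃ n, p ∈ (C n).1} with hU
  refine ⟨U, fun i => i.1.1, fun i => i.1.2, ?_, ?_, ?_, ?_⟩
  · rintro ⟨p, n, hp⟩
    exact (C n).2.1 p hp
  · rintro ⟨p, n, hp⟩ ⟨q, m, hq⟩ hne
    have hp' : p ∈ (C (max n m)).1 := hmono (le_max_left n m) hp
    have hq' : q ∈ (C (max n m)).1 := hmono (le_max_right n m) hq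
    refine (C (max n m)).2.2 p hp' q hq' fun h => hne ?_
    exact Subtype.ext h
  · rw [← univ_subset_iff, ← hzd.closure_range]
    refine closure_mono ?_
    rintro _ ⟨n, rfl⟩
    have h1 := hnx2 n (C n)
    rw [← hC] at h1
    refine Submodule.span_mono ?_ h1
    rintro _ ⟨p, hp, rfl⟩
    exact ⟨⟨p, n + 1, hp⟩, rfl⟩
  · intro v hv
    have hgv : ∀ n, g n v = 0 := by
      intro n
      have h1 := hnx3 n (C n)
      rw [← hC] at h1
      refine Submodule.span_induction (p := fun (h : X →L[𝕜] 𝕜) _ => h v = 0) ?_ ?_ ?_ ?_ h1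
      · rintro _ ⟨p, hp, rfl⟩
        exact hv ⟨p, n + 1, hp⟩
      · rfl
      · intro a b _ _ ha hb
        rw [ContinuousLinearMap.add_apply, ha, hb, add_zero]
      · intro c a _ ha
        rw [ContinuousLinearMap.smul_apply, ha, smul_zero]
    by_contra hv0
    have hpos : 0 < ‖v‖ := norm_pos_iff.2 hv0
    obtain ⟨_, hn, ⟨n, rfl⟩⟩ := Metric.dense_iff.1 hzd v (‖v‖ / 3) (by positivity)
    rw [Metric.mem_ball, dist_eq_norm] at hn
    have h2 : ‖z n‖ ≤ ‖z n - v‖ := by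
      have h3 : g n (z n - v) = ((‖z n‖ : ℝ) : 𝕜) := by rw [map_sub, hgv n, sub_zero, hg2 n]
      have h4 : ‖g n (z n - v)‖ ≤ ‖z n - v‖ := by
        refine (ContinuousLinearMap.le_opNorm _ _).trans ?_
        exact mul_le_of_le_one_left (norm_nonneg _) (hg1 n)
      rw [h3, RCLike.norm_ofReal, abs_of_nonneg (norm_nonneg _)] at h4
      exact h4
    have h5 : ‖v‖ ≤ ‖z n‖ + ‖z n - v‖ := by
      have h6 : v = z n - (z n - v) := by abel
      calc ‖v‖ = ‖z n - (z n - v)‖ := by rw [← h6]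
        _ ≤ _ := norm_sub_le _ _
    linarith

end Pool.Agent.D0H22.MK
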